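import Pool.Agent.R804.TK.Defs

/-!
# TK-DEL: deleting a vertex
-/

set_option autoImplicit false

namespace Pool.Agent.R746.TK

open Pool.Agent.R553.HW Pool.Agent.R804.TK

theorem DEL : S_DEL := by
  intro V _ G v k m hm
  have hinj : Function.Injective (Subtype.val : ↥{x : V | x ≠ v} → V) := Subtype.val_injective
  refine CMt_comp (tok k G) (tok k (G.induce {x | x ≠ v}))
    (fun S => {⟨Subtype.val '' S.1, by rw [Set.ncard_image_of_injective _ hinj]; exact S.2⟩})
    (fun w => conn_singleton _ _) ?_ ?_ hm
  · intro S T hST
    rw [Set.disjoint_singleton]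
    intro he
    apply hST
    have h1 := congrArg Subtype.val he
    exact Subtype.ext (hinj.image_injective h1)
  · rintro S T ⟨a, b, hab, h1, h2⟩
    refine ⟨_, rfl, _, rfl, a.1, b.1, hab, ?_, ?_⟩
    · simp only
      rw [← Set.image_sdiff hinj, h1, Set.image_singleton]
    · simp only
      rw [← Set.image_sdiff hinj, h2, Set.image_singleton]

end Pool.Agent.R746.TK
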