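import Pool.Agent.R804.TK.Defs

/-!
# TK-MIN: clique minor of the contraction
-/

set_option autoImplicit false

namespace Pool.Agent.R746.TK

open Pool.Agent.R553.HW Pool.Agent.R804.TK

open Classical in
/-- the contraction map -/
noncomputable def r {V : Type} (u v : V) (h : u ≠ v) (x : V) : {x // x ≠ v} :=
  if hx : x = v then ⟨u, h⟩ else ⟨x, hx⟩

theorem r_v {V : Type} {u v : V} (h : u ≠ v) : r u v h v = ⟨u, h⟩ := by
  unfold r
  rw [dif_pos rfl]

theorem r_ne {V : Type} {u v : V} (h : u ≠ v) {x : V} (hx : x ≠ v) : r u v h x = ⟨x, hx⟩ := by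
  unfold r
  rw [dif_neg hx]

theorem r_adj {V : Type} {G : SimpleGraph V} {u v : V} (h : u ≠ v) {x y : V} (hxy : G.Adj x y) :
    r u v h x = r u v h y ∨ (contr G u v).Adj (r u v h x) (r u v h y) := by
  by_cases he : r u v h x = r u v h y
  · exact Or.inl he
  right
  refine ⟨he, ?_⟩
  by_cases hx : x = v
  · subst hx
    have hy : y ≠ x := fun e => G.loopless.irrefl x (by rw [e] at hxy; exact hxy)
    rw [r_v h, r_ne h hy]
    exact Or.inr (Or.inl ⟨rfl, hxy⟩)
  · by_cases hy : y = v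
    · subst hy
      rw [r_v h, r_ne h hx]
      exact Or.inr (Or.inr ⟨rfl, hxy⟩)
    · rw [r_ne h hx, r_ne h hy]
      exact Or.inl hxy

theorem MIN : S_MIN := by
  intro V G u v huv m f h1 h2 h3 i hui hvi
  have h : u ≠ v := G.ne_of_adj huv
  have hmem : ∀ j, ∀ x ∈ f j, (r u v h x).1 ∈ f j := by
    intro j x hx
    by_cases hxv : x = v
    · subst hxv
      rw [r_v h]
      have hji : j = i := by
        by_contra hji
        exact Set.disjoint_left.1 (h2 j i hji) hx hvi
      rw [hji]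
      exact hui
    · rw [r_ne h hxv]
      exact hx
  have hdis : ∀ a b, a ≠ b → Disjoint {x : {x // x ≠ v} | x.1 ∈ f a}
      {x : {x // x ≠ v} | x.1 ∈ f b} := by
    intro a b hab
    rw [Set.disjoint_left]
    intro x hx hy
    exact Set.disjoint_left.1 (h2 a b hab) hx hy
  refine ⟨fun j => {x | x.1 ∈ f j}, fun j => ?_, hdis, ?_⟩
  · have key : ∀ (a b : f j) (_ : (G.induce (f j)).Walk a b),
        ((contr G u v).induce {x : {x // x ≠ v} | x.1 ∈ f j}).Reachable
          ⟨r u v h a.1, hmem j a.1 a.2⟩ ⟨r u v h b.1, hmem j b.1 b.2⟩ := by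
      intro a b p
      induction p with
      | nil => exact SimpleGraph.Reachable.refl _
      | @cons a c b hac p ih =>
        have hac' : G.Adj a.1 c.1 := hac
        rcases r_adj h hac' with he | he
        · have : (⟨r u v h a.1, hmem j a.1 a.2⟩ : {x : {x // x ≠ v} | x.1 ∈ f j}) =
              ⟨r u v h c.1, hmem j c.1 c.2⟩ := Subtype.ext he
          rw [this]
          exact ih
        · refine SimpleGraph.Reachable.trans ?_ ih
          apply SimpleGraph.Adj.reachable
          exact he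
    rw [SimpleGraph.connected_iff]
    constructor
    · rintro ⟨⟨x, hx⟩, hxf⟩ ⟨⟨y, hy⟩, hyf⟩
      obtain ⟨p⟩ := (h1 j).preconnected ⟨x, hxf⟩ ⟨y, hyf⟩
      have h4 := key _ _ p
      have e1 : (⟨r u v h x, hmem j x hxf⟩ : {x : {x // x ≠ v} | x.1 ∈ f j}) =
          ⟨⟨x, hx⟩, hxf⟩ := Subtype.ext (r_ne h hx)
      have e2 : (⟨r u v h y, hmem j y hyf⟩ : {x : {x // x ≠ v} | x.1 ∈ f j}) =
          ⟨⟨y, hy⟩, hyf⟩ := Subtype.ext (r_ne h hy)
      rw [← e1, ← e2]
      exact h4
    · obtain ⟨x⟩ := (h1 j).nonempty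
      exact ⟨⟨r u v h x.1, hmem j x.1 x.2⟩⟩
  · intro a b hab
    obtain ⟨x, hx, y, hy, hxy⟩ := h3 a b hab
    refine ⟨r u v h x, hmem a x hx, r u v h y, hmem b y hy, ?_⟩
    rcases r_adj h hxy with he | he
    · exfalso
      refine Set.disjoint_left.1 (hdis a b hab) (hmem a x hx : r u v h x ∈ _) ?_
      rw [he]
      exact hmem b y hy
    · exact he

end Pool.Agent.R746.TK
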